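import Pool.Agent.Lib.MP_8850da_pr.F10

/-!
# Biased perturbations of majority cellular automata are ergodic

The definitions (`Config`, `maj`, `PCA`, `PCA.next`, `PCA.act`, `PCA.Ergodic`, `PCA.err`) are in
`Pool.Agent.Lib.MP_8850da_pr.Defs`.
-/

set_option autoImplicit false

namespace Pool.Agent.Results.MP_8850da_pr.BiasedPerturbations

open Pool.Agent.Lib.MP_8850da_pr

/-- Let `N` be a finite set of integers with `2 m + 1 ≥ 3` elements and median `ν` such that both
sides of the median contain an element at distance at most `k` from it, let `R` be a natural number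
and `γ < 1 / 2`. There is `ε > 0` such that every probabilistic cellular automaton `Φ` with
neighbourhood in `[-R, R]` is ergodic if its error probabilities (the probability of a new symbol
different from the one computed by the majority cellular automaton, in a given context) are at most
`ε`, those at the sites with computed symbol `!b` are positive, and those at the sites with computed
symbol `b` are at most `2 / (k (k + 1)) * (1 - e ^ γ) * e` for each error probability `e` at a site
with computed symbol `!b`. For `k = 1` (all centred intervals `N`) the factor `2 / (k (k + 1))`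
is `1`. -/
theorem result (N : Finset ℤ) (ν : ℤ) (m k : ℕ)
    (h1 : (N.filter (fun n => n < ν)).card = m) (h2 : (N.filter (fun n => ν < n)).card = m)
    (h3 : ν ∈ N) (h4 : ∃ n ∈ N, ν - k ≤ n ∧ n < ν) (h5 : ∃ n ∈ N, ν < n ∧ n ≤ ν + k) (R : ℕ)
    (γ : ℝ) (hγ : γ < 1 / 2) :
    ∃ ε : ℝ, 0 < ε ∧ ∀ Φ : PCA, (∀ n ∈ Φ.nbhd, |n| ≤ R) → (∀ x i, Φ.err N x i ≤ ε) →
      ∀ b : Bool, (∀ x i, maj N x i = (!b) → 0 < Φ.err N x i ∧ ∀ y j, maj N y j = b →
        Φ.err N y j ≤ 2 / (k * (k + 1)) * (1 - Φ.err N x i ^ γ) * Φ.err N x i) →
      Φ.Ergodic :=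
  ergodic_context N ν m k h1 h2 h3 h4 h5 R hγ

end Pool.Agent.Results.MP_8850da_pr.BiasedPerturbations
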